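import Pool.Agent.helper83.LE.SpecB

set_option autoImplicit false

namespace Pool.Agent.LE

open Pool.Agent.helper58.DC Pool.Agent.DI Pool.Agent.GR Pool.Agent.OB Pool.Agent.DR Pool.Agent.FI Pool.Agent.FI3 Pool.Agent.FI4 Pool.Agent.FI4C

theorem CNL_blk (hFSI : FSI_stmt) (hIM : IM_stmt) (hC3 : C3_stmt) {p : ℕ}
    {M : Ideal (integralClosure ℤ ℂ)} (hs : Setup p M) {G : Type} [Group G] [Finite G]
    {D : Subgroup G} {x : G} {θ χ : G → ℂ} (hr : Rt p M D x θ χ) :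
    Blk M χ (⊤ : Subgroup G) = Bl M (⊤ : Subgroup G) θ := by
  ext ψ
  constructor
  · rintro ⟨h0, h⟩
    refine ⟨h0, fun z hz hzi => ?_⟩
    have h1 : Induces M χ θ := (hIM G M θ χ θ).2.1 hr.ind
    have h2 : Induces M ψ θ := (hIM G M ψ χ θ).2.2.1 h h1
    have : Fact p.Prime := ⟨hs.pr⟩
    exact (hC3 G).2.2.1 p M hs.max hs.mem ψ θ h2 z
      ⟨fun x y => hz.1 y (Subgroup.mem_top y) x, hzi⟩
  · rintro ⟨h0, h⟩
    exact ⟨h0, ((hFSI p M hs G ⊤ ⊤ ψ θ).2 (fun x hx => absurd (Subgroup.mem_top x) hx)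
      (fun x hx => absurd (Subgroup.mem_top x) hx) h χ).2 hr.ind⟩

theorem CNL_pow {p m : ℕ} {G : Type} [Group G] [Finite G] (hm : Gm2 p (Nat.card G) m)
    {y v : G} (hv : PReg p v) (hc : y * v = v * y) : (y * v) ^ m = y ^ m * v := by
  have h1 : Commute y v := hc
  have h2 : m ≡ 1 [MOD orderOf v] := hm.reg _ (orderOf_dvd_natCard v) hv
  have h3 : v ^ m = v ^ 1 := pow_eq_pow_iff_modEq.2 h2
  rw [h1.mul_pow, h3, pow_one]

theorem CNL (hCFX : Pool.Agent.FI4C.CFX_stmt) (hPPT : PPT_stmt) (hCS2 : CS2_stmt) (hCP2 : CP2_stmt)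
    (hFSI : FSI_stmt) (hIM : IM_stmt) (hC3 : C3_stmt) (hIF : IF_stmt) : CNL_stmt := by
  classical
  intro p M hs G _ _ D x θ χ hlo m hm
  have hr := hlo.rt
  have hB := CNL_blk hFSI hIM hC3 hs hr
  have hG0 : (0 : ℝ) < (Nat.card G : ℝ) := by exact_mod_cast (Nat.card_pos (α := G))
  have hG : (Nat.card G : ℂ) ≠ 0 := by exact_mod_cast (Nat.card_pos (α := G)).ne'
  have h1 := hCFX M G χ m hm.cop
  rw [hPPT p hs.pr G ⊤ (fun g => Sf (Blk M χ (⊤ : Subgroup G)) (g ^ m) g)] at h1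
  have hc : ∀ y v : G, v ∈ Cz (⊤ : Subgroup G) y → y * v = v * y := by
    intro y v hv
    have h : v ∈ Subgroup.centralizer ({y} : Set G) := hv.2
    rw [Subgroup.mem_centralizer_singleton_iff] at h
    exact h.symm
  have h2 : ∀ y : G, y ≠ 1 → PEl p y → ∃ r : ℝ, 0 ≤ r ∧
        ∑ᶠ v ∈ {v : G | v ∈ Cz (⊤ : Subgroup G) y ∧ PReg p v},
          Sf (Blk M χ (⊤ : Subgroup G)) ((y * v) ^ m) (y * v) = (r : ℂ) := by
    intro y hy1 hy
    have he : ∑ᶠ v ∈ {v : G | v ∈ Cz (⊤ : Subgroup G) y ∧ PReg p v},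
          Sf (Blk M χ (⊤ : Subgroup G)) ((y * v) ^ m) (y * v) =
        ∑ᶠ v ∈ {v : G | v ∈ Cz (⊤ : Subgroup G) y ∧ PReg p v},
          Sf (Bl M (⊤ : Subgroup G) θ) (y ^ m * v) (y * v) := by
      refine finsum_mem_congr rfl fun v hv => ?_
      rw [CNL_pow hm hv.2 (hc y v hv.1), hB]
    rw [he]
    by_cases hyp : y ^ p = 1
    · exact hCP2 p M hs G θ m hm y hyp
    · exact ⟨0, le_refl _, by rw [hCS2 p M hs G D x θ χ hlo m hm y hy hyp]; simp⟩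
  choose! r hr0 hr1 using h2
  have h3 : ∑ᶠ v ∈ {v : G | v ∈ Cz (⊤ : Subgroup G) (1 : G) ∧ PReg p v},
          Sf (Blk M χ (⊤ : Subgroup G)) (((1 : G) * v) ^ m) ((1 : G) * v) =
      ∑ᶠ v ∈ {v : G | v ∈ (⊤ : Subgroup G) ∧ PReg p v}, Sf (Blk M χ (⊤ : Subgroup G)) v v := by
    refine finsum_mem_congr ?_ fun v hv => ?_
    · ext v
      constructor
      · rintro ⟨_, h⟩
        exact ⟨Subgroup.mem_top _, h⟩
      · rintro ⟨_, h⟩
        refine ⟨⟨Subgroup.mem_top _, ?_⟩, h⟩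
        show v ∈ Subgroup.centralizer ({(1 : G)} : Set G)
        rw [Subgroup.mem_centralizer_singleton_iff]
        simp
    · have h4 : (1 * v : G) ^ m = 1 ^ m * v := CNL_pow hm hv.2 (by simp)
      rw [h4, one_pow, one_mul]
  have hfin : (Blk M χ (⊤ : Subgroup G)).Finite :=
    (hIF G ⊤).1.subset fun ψ hψ => hψ.1
  have hV : {v : G | v ∈ (⊤ : Subgroup G) ∧ PReg p v}.Finite := Set.toFinite _
  have h5 : ∑ᶠ v ∈ {v : G | v ∈ (⊤ : Subgroup G) ∧ PReg p v}, Sf (Blk M χ (⊤ : Subgroup G)) v v =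
      (Nat.card G : ℂ) * LL p M χ ⊤ := by
    have h6 : ∑ᶠ v ∈ {v : G | v ∈ (⊤ : Subgroup G) ∧ PReg p v},
        Sf (Blk M χ (⊤ : Subgroup G)) v v =
        ∑ᶠ φ ∈ Blk M χ (⊤ : Subgroup G), ∑ᶠ v ∈ {v : G | v ∈ (⊤ : Subgroup G) ∧ PReg p v},
          φ v * φ v⁻¹ :=
      finsum_mem_comm (fun (v : G) (φ : G → ℂ) => φ v * φ v⁻¹) hV hfin
    rw [h6]
    unfold LL
    rw [finsum_mem_eq_finite_toFinset_sum _ hfin, finsum_mem_eq_finite_toFinset_sum _ hfin,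
      Finset.mul_sum]
    refine Finset.sum_congr rfl fun φ _ => ?_
    unfold EE
    rw [Subgroup.card_top]
    field_simp
  have hY : {y : G | y ∈ (⊤ : Subgroup G) ∧ PEl p y}.Finite := Set.toFinite _
  have hY1 : (1 : G) ∈ hY.toFinset := by
    rw [Set.Finite.mem_toFinset]
    exact ⟨Subgroup.mem_top _, ⟨0, one_pow _⟩⟩
  rw [finsum_mem_eq_finite_toFinset_sum _ hY, ← Finset.add_sum_erase _ _ hY1, h3, h5] at h1
  have h7 : ∑ y ∈ hY.toFinset.erase 1, ∑ᶠ v ∈ {v : G | v ∈ Cz (⊤ : Subgroup G) y ∧ PReg p v},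
          Sf (Blk M χ (⊤ : Subgroup G)) ((y * v) ^ m) (y * v) =
      ((∑ y ∈ hY.toFinset.erase 1, r y : ℝ) : ℂ) := by
    rw [Complex.ofReal_sum]
    refine Finset.sum_congr rfl fun y hy => ?_
    rw [Finset.mem_erase, Set.Finite.mem_toFinset] at hy
    exact hr1 y hy.1 hy.2.2
  rw [h7] at h1
  refine ⟨(∑ y ∈ hY.toFinset.erase 1, r y) / (Nat.card G : ℝ), ?_, ?_⟩
  · refine div_nonneg (Finset.sum_nonneg fun y hy => ?_) hG0.le
    rw [Finset.mem_erase, Set.Finite.mem_toFinset] at hy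
    exact hr0 y hy.1 hy.2.2
  · apply mul_left_cancel₀ hG
    rw [h1, mul_add]
    push_cast
    rw [mul_div_cancel₀ _ hG]

end Pool.Agent.LE
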