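import Pool.Agent.helper73.LE.TK
import Pool.Agent.helper37.LE.MS

/-!
# From finite boxes to the time constant (module lf:LB)
-/

open Finset Classical MeasureTheory Filter Topology

namespace Pool.Agent.helper66.LE

variable {d : ℕ} {p : ℝ}

theorem LB_box_mono {n m : ℕ} (h : n ≤ m) : box d n ⊆ box d m := by
  intro x hx
  simp only [box, Fintype.mem_piFinset, Finset.mem_Icc] at hx ⊢
  intro i
  have := hx i
  have h' : (n : ℤ) ≤ m := by exact_mod_cast h
  omega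

theorem LB_zE_mono {Λ Λ' : Finset (Fin d → ℤ)} (h : Λ ⊆ Λ') : zE d Λ ⊆ zE d Λ' := by
  intro e he
  simp only [zE, Finset.mem_image, Finset.mem_filter, Finset.mem_product] at he ⊢
  obtain ⟨p, ⟨⟨h1, h2⟩, h3⟩, h4⟩ := he
  exact ⟨p, ⟨⟨h h1, h2⟩, h h3⟩, h4⟩

theorem LB_exists_box (Λ : Finset (Fin d → ℤ)) : ∃ n : ℕ, Λ ⊆ box d n := by
  refine ⟨∑ x ∈ Λ, ∑ i, (x i).natAbs, fun x hx => ?_⟩
  simp only [box, Fintype.mem_piFinset, Finset.mem_Icc]
  intro i
  have h1 : (x i).natAbs ≤ ∑ j, (x j).natAbs :=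
    Finset.single_le_sum (f := fun j => (x j).natAbs) (fun _ _ => Nat.zero_le _) (Finset.mem_univ i)
  have h2 : ∑ j, (x j).natAbs ≤ ∑ x ∈ Λ, ∑ i, (x i).natAbs :=
    Finset.single_le_sum (f := fun x : Fin d → ℤ => ∑ i, (x i).natAbs) (fun _ _ => Nat.zero_le _) hx
  have h3 : ((x i).natAbs : ℤ) ≤ ((∑ x ∈ Λ, ∑ i, (x i).natAbs : ℕ) : ℤ) := by exact_mod_cast h1.trans h2
  omega

theorem LB_opn_mem {E E' : Finset (Sym2 (Fin d → ℤ))} (ω : Env d) (h : E ⊆ E') :
    ∀ e ∈ E, e ∈ opn ω E → e ∈ opn ω E' := by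
  intro e he he'
  simp only [opn, Finset.mem_filter] at he' ⊢
  exact ⟨h he, he'.2⟩

theorem LB_PT_mono {Λ Λ' : Finset (Fin d → ℤ)} (h : Λ ⊆ Λ') (ω : Env d) {k : ℕ} {x y : Fin d → ℤ}
    (h' : PT (zE d Λ) (opn ω (zE d Λ)) k x y) : PT (zE d Λ') (opn ω (zE d Λ')) k x y :=
  PT_mono (LB_zE_mono h) (LB_opn_mem ω (LB_zE_mono h)) le_rfl h'

theorem law_T_le (h0 : 0 ≤ p) (h1 : p ≤ 1) (x y : Fin d → ℤ) (k : ℕ) (ρ : ℝ)
    (h : ∀ n, Pr (1 - p) (zE d (box d n)) (fun F => PT (zE d (box d n)) F k x y) ≤ ρ) :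
    law d p {ω | T ω x y < k + 1} ≤ ENNReal.ofReal ρ := by
  have h2 : law d p {ω | T ω x y < k + 1} ≤
      law d p (⋃ n : ℕ, {ω | PT (zE d (box d n)) (opn ω (zE d (box d n))) k x y}) := by
    refine measure_mono_ae ?_
    filter_upwards [ae_zero_one (d := d) h0 h1] with ω hω hT
    have h3 : T ω x y < k + 1 := hT
    rw [T_lt_iff hω] at h3
    obtain ⟨n, hn⟩ := h3
    exact Set.mem_iUnion.2 ⟨n, hn⟩
  refine h2.trans ?_
  rw [Monotone.measure_iUnion]
  · refine iSup_le fun n => ?_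
    rw [(law_opn (d := d) h0 h1 (box d n) (fun F => PT (zE d (box d n)) F k x y)).1]
    exact ENNReal.ofReal_le_ofReal (h n)
  · intro n m hnm ω hω
    exact LB_PT_mono (LB_box_mono hnm) ω hω

theorem le_law_T (h0 : 0 ≤ p) (h1 : p ≤ 1) (x y : Fin d → ℤ) (k : ℕ) (Λ : Finset (Fin d → ℤ)) :
    ENNReal.ofReal (Pr (1 - p) (zE d Λ) (fun F => PT (zE d Λ) F k x y)) ≤
      law d p {ω | T ω x y < k + 1} := by
  rw [← (law_opn (d := d) h0 h1 Λ (fun F => PT (zE d Λ) F k x y)).1]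
  refine measure_mono_ae ?_
  filter_upwards [ae_zero_one (d := d) h0 h1] with ω hω hT
  obtain ⟨n, hn⟩ := LB_exists_box Λ
  have h3 : PT (zE d Λ) (opn ω (zE d Λ)) k x y := hT
  exact (T_lt_iff hω x y k).2 ⟨n, LB_PT_mono hn ω h3⟩

variable [NeZero d]

/-- almost sure convergence implies convergence in probability: the two consequences we need. -/
theorem timeConst_nonneg (h0 : 0 ≤ p) (h1 : p ≤ 1) {g : ℝ} (hg : IsTimeConst d p g) : 0 ≤ g := by
  have := law_prob (d := d) h0 h1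
  obtain ⟨ω, h2, h3⟩ := (hg.and (ae_zero_one (d := d) h0 h1)).exists
  exact ge_of_tendsto' h2 fun n => div_nonneg (T_nonneg h3 _ _) (Nat.cast_nonneg n)

theorem timeConst_unique (h0 : 0 ≤ p) (h1 : p ≤ 1) {g g' : ℝ} (hg : IsTimeConst d p g)
    (hg' : IsTimeConst d p g') : g = g' := by
  have := law_prob (d := d) h0 h1
  obtain ⟨ω, h2, h3⟩ := (Filter.Eventually.and hg hg').exists
  exact tendsto_nhds_unique h2 h3

theorem LB_meas (n : ℕ) : Measurable (fun ω : Env d => T ω 0 (Pi.single 0 (n : ℤ)) / n) :=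
  (measurable_T 0 (Pi.single 0 (n : ℤ))).div_const _

theorem LB_tendsto (h0 : 0 ≤ p) (h1 : p ≤ 1) {g : ℝ} (hg : IsTimeConst d p g) {ε : ℝ} (hε : 0 < ε) :
    Tendsto (fun n : ℕ => law d p {ω | ε ≤ |T ω 0 (Pi.single 0 (n : ℤ)) / n - g|}) atTop (𝓝 0) := by
  have := law_prob (d := d) h0 h1
  have h2 : TendstoInMeasure (law d p) (fun (n : ℕ) (ω : Env d) => T ω 0 (Pi.single 0 (n : ℤ)) / n) atTop
      (fun _ => g) := by
    refine tendstoInMeasure_of_tendsto_ae (fun n => (LB_meas n).aestronglyMeasurable) hg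
  have h3 := (tendstoInMeasure_iff_norm.1 h2) ε hε
  simpa only [Real.norm_eq_abs] using h3

theorem timeConst_prob (h0 : 0 ≤ p) (h1 : p ≤ 1) {g : ℝ} (hg : IsTimeConst d p g) {c : ℝ} (hc : c < g) :
    Tendsto (fun n : ℕ => law d p {ω | T ω 0 (Pi.single 0 (n : ℤ)) ≤ c * n}) atTop (𝓝 0) := by
  have h2 := LB_tendsto h0 h1 hg (sub_pos.2 hc)
  refine tendsto_of_tendsto_of_tendsto_of_le_of_le' tendsto_const_nhds h2
    (Filter.Eventually.of_forall fun n => bot_le) ?_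
  filter_upwards [eventually_gt_atTop 0] with n hn
  refine measure_mono fun ω hω => ?_
  have hn' : (0 : ℝ) < n := by exact_mod_cast hn
  have h3 : T ω 0 (Pi.single 0 (n : ℤ)) ≤ c * n := hω
  have h4 : T ω 0 (Pi.single 0 (n : ℤ)) / n ≤ c := by rwa [div_le_iff₀ hn']
  change g - c ≤ |T ω 0 (Pi.single 0 (n : ℤ)) / n - g|
  rw [abs_sub_comm]
  exact (by linarith : g - c ≤ g - T ω 0 (Pi.single 0 (n : ℤ)) / n).trans (le_abs_self _)

/-- exponential bounds for the passage times in boxes give a lower bound for the time constant. -/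
theorem timeConst_ge (h0 : 0 ≤ p) (h1 : p ≤ 1) {g : ℝ} (hg : IsTimeConst d p g) {A B l c : ℝ}
    (hA : 0 ≤ A) (hB : 1 ≤ B) (hc : 0 ≤ c) (hl : c * Real.log B < l)
    (h : ∀ n k m : ℕ, Pr (1 - p) (zE d (box d m))
      (fun F => PT (zE d (box d m)) F k 0 (Pi.single 0 (n : ℤ))) ≤ A * B ^ k * Real.exp (-(l * n))) :
    c ≤ g := by
  have := law_prob (d := d) h0 h1
  by_contra hcon
  push Not at hcon
  have hB0 : 0 < B := lt_of_lt_of_le one_pos hB
  have h2 := LB_tendsto h0 h1 hg (sub_pos.2 hcon)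
  -- the probability of `T ≤ c n` tends to zero
  have h3 : ∀ n : ℕ, law d p {ω | T ω 0 (Pi.single 0 (n : ℤ)) ≤ c * n} ≤
      ENNReal.ofReal (A * Real.exp (-((l - c * Real.log B) * n))) := by
    intro n
    have h4 : {ω : Env d | T ω 0 (Pi.single 0 (n : ℤ)) ≤ c * n} ⊆
        {ω | T ω 0 (Pi.single 0 (n : ℤ)) < (⌊c * n⌋₊ : ℕ) + 1} := by
      intro ω hω
      have h5 : T ω 0 (Pi.single 0 (n : ℤ)) ≤ c * n := hω
      exact lt_of_le_of_lt h5 (Nat.lt_floor_add_one _)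
    refine (measure_mono h4).trans ?_
    refine law_T_le h0 h1 _ _ _ _ fun m => (h n _ m).trans ?_
    have hcn : 0 ≤ c * (n : ℝ) := mul_nonneg hc (Nat.cast_nonneg n)
    have h5 : B ^ ⌊c * (n : ℝ)⌋₊ ≤ Real.exp (c * n * Real.log B) := by
      rw [← Real.rpow_natCast, Real.rpow_def_of_pos hB0]
      refine Real.exp_le_exp.2 ?_
      rw [mul_comm]
      exact mul_le_mul_of_nonneg_right (Nat.floor_le hcn) (Real.log_nonneg hB)
    calc A * B ^ ⌊c * (n : ℝ)⌋₊ * Real.exp (-(l * n))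
        ≤ A * Real.exp (c * n * Real.log B) * Real.exp (-(l * n)) := by gcongr
      _ = A * Real.exp (-((l - c * Real.log B) * n)) := by
          rw [mul_assoc, ← Real.exp_add]
          congr 2
          ring
  have h6 : Tendsto (fun n : ℕ => ENNReal.ofReal (A * Real.exp (-((l - c * Real.log B) * n)))) atTop (𝓝 0) := by
    rw [← ENNReal.ofReal_zero]
    refine (ENNReal.continuous_ofReal.tendsto _).comp ?_
    have h7 : Tendsto (fun n : ℕ => Real.exp (-((l - c * Real.log B) * n))) atTop (𝓝 0) := by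
      refine Real.tendsto_exp_neg_atTop_nhds_zero.comp ?_
      exact Tendsto.const_mul_atTop (sub_pos.2 hl) tendsto_natCast_atTop_atTop
    simpa using h7.const_mul A
  have h7 : Tendsto (fun n : ℕ => law d p {ω | T ω 0 (Pi.single 0 (n : ℤ)) ≤ c * n} +
      law d p {ω | c - g ≤ |T ω 0 (Pi.single 0 (n : ℤ)) / n - g|}) atTop (𝓝 0) := by
    have := (tendsto_of_tendsto_of_tendsto_of_le_of_le tendsto_const_nhds h6 (fun n => bot_le) h3).add h2
    simpa using this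
  have h8 : ∀ᶠ n : ℕ in atTop, (1 : ENNReal) ≤ law d p {ω | T ω 0 (Pi.single 0 (n : ℤ)) ≤ c * n} +
      law d p {ω | c - g ≤ |T ω 0 (Pi.single 0 (n : ℤ)) / n - g|} := by
    filter_upwards [eventually_gt_atTop 0] with n hn
    have hn' : (0 : ℝ) < n := by exact_mod_cast hn
    refine le_trans ?_ (measure_union_le _ _)
    rw [← measure_univ (μ := law d p)]
    refine measure_mono fun ω _ => ?_
    by_cases h9 : T ω 0 (Pi.single 0 (n : ℤ)) ≤ c * n
    · exact Or.inl h9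
    · right
      push Not at h9
      change c - g ≤ |T ω 0 (Pi.single 0 (n : ℤ)) / n - g|
      have h10 : c ≤ T ω 0 (Pi.single 0 (n : ℤ)) / n := by rw [le_div_iff₀ hn']; exact h9.le
      exact (by linarith : c - g ≤ T ω 0 (Pi.single 0 (n : ℤ)) / n - g).trans (le_abs_self _)
  have h9 := h7.eventually (gt_mem_nhds (zero_lt_one (α := ENNReal)))
  obtain ⟨n, hn1, hn2⟩ := (h8.and h9).exists
  exact absurd hn1 (not_le.2 hn2)

end Pool.Agent.helper66.LE
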