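import Pool.Agent.helper23.LE.LB

/-!
# Percolation implies that the time constant vanishes (module lf:TH)
-/

open Finset Classical MeasureTheory Filter Topology

namespace Pool.Agent.helper66.LE

variable {d : ℕ}

theorem TH_mem_box {n : ℕ} {x : Fin d → ℤ} : x ∈ box d n ↔ ∀ i, |x i| ≤ n := by
  simp only [box, Fintype.mem_piFinset, Finset.mem_Icc, abs_le]

theorem TH_uv_iff (v : Fin d → ℤ) : v ∈ uv d ℤ ↔ ∑ i, |v i| = 1 := by
  constructor
  · intro h
    simp only [uv, Finset.mem_image, Finset.mem_univ, true_and] at h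
    obtain ⟨⟨i, b⟩, rfl⟩ := h
    rw [Finset.sum_eq_single i]
    · cases b <;> simp
    · intro j _ hj
      simp [Pi.single_eq_of_ne hj]
    · simp
  · intro h
    have h1 : ∃ i, v i ≠ 0 := by
      by_contra hcon
      push Not at hcon
      simp [hcon] at h
    obtain ⟨i, hi⟩ := h1
    rw [← Finset.add_sum_erase _ _ (Finset.mem_univ i)] at h
    have h2 : 0 < |v i| := abs_pos.2 hi
    have h3 : 0 ≤ ∑ j ∈ (Finset.univ : Finset (Fin d)).erase i, |v j| :=
      Finset.sum_nonneg fun _ _ => abs_nonneg _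
    have h4 : ∑ j ∈ (Finset.univ : Finset (Fin d)).erase i, |v j| = 0 := by omega
    have h5 : |v i| = 1 := by omega
    rw [Finset.sum_eq_zero_iff_of_nonneg fun _ _ => abs_nonneg _] at h4
    simp only [uv, Finset.mem_image, Finset.mem_univ, true_and]
    have h6 : ∀ j, j ≠ i → v j = 0 := fun j hj => abs_eq_zero.1 (h4 j (by simp [hj]))
    rcases (abs_eq (by norm_num : (0 : ℤ) ≤ 1)).1 h5 with h7 | h7
    · refine ⟨(i, true), ?_⟩
      funext j
      by_cases hj : j = i
      · subst hj; simp [h7]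
      · simp [Pi.single_eq_of_ne hj, h6 j hj]
    · refine ⟨(i, false), ?_⟩
      funext j
      by_cases hj : j = i
      · subst hj; simp [h7]
      · simp [Pi.single_eq_of_ne hj, h6 j hj]

theorem TH_mem_zE {Λ : Finset (Fin d → ℤ)} {x y : Fin d → ℤ} :
    s(x, y) ∈ zE d Λ ↔ x ∈ Λ ∧ y ∈ Λ ∧ ∑ i, |x i - y i| = 1 := by
  simp only [zE, Finset.mem_image, Finset.mem_filter, Finset.mem_product]
  constructor
  · rintro ⟨⟨a, u⟩, ⟨⟨h1, h2⟩, h3⟩, h4⟩
    rw [TH_uv_iff] at h2
    simp only at h1 h2 h3 h4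
    rw [Sym2.eq_iff] at h4
    rcases h4 with ⟨rfl, rfl⟩ | ⟨rfl, rfl⟩
    · refine ⟨h1, h3, ?_⟩
      rw [← h2]
      refine Finset.sum_congr rfl fun i _ => ?_
      simp
    · refine ⟨h3, h1, ?_⟩
      rw [← h2]
      refine Finset.sum_congr rfl fun i _ => ?_
      simp
  · rintro ⟨h1, h2, h3⟩
    refine ⟨(x, y - x), ⟨⟨h1, ?_⟩, ?_⟩, ?_⟩
    · rw [TH_uv_iff, ← h3]
      refine Finset.sum_congr rfl fun i _ => ?_
      change |y i - x i| = |x i - y i|
      rw [abs_sub_comm]
    · simpa using h2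
    · simp

/-- comparison of passage times under an injection (general graphs). -/
theorem TH_gen {V W : Type*} {E : Finset (Sym2 V)} {E' : Finset (Sym2 W)} (φ : V → W)
    (hφ : Function.Injective φ) (hE : ∀ e ∈ E, Sym2.map φ e ∈ E') {q : ℝ} (h0 : 0 ≤ q) (h1 : q ≤ 1)
    (k : ℕ) (x y : V) :
    Pr q E (fun F => PT E F k x y) ≤ Pr q E' (fun F => PT E' F k (φ x) (φ y)) := by
  have hE' : E.image (Sym2.map φ) ⊆ E' := by
    intro e he
    rw [Finset.mem_image] at he
    obtain ⟨e', he', rfl⟩ := he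
    exact hE e' he'
  refine Pr_le_of_map h0 h1 (Sym2.map φ) (Sym2.map.injective hφ).injOn hE' (fun F => PT E F k x y)
    (fun F => PT E' F k (φ x) (φ y)) (inc_PT _ _ _ _) ?_
  intro F hF h
  exact PT_image (E' := E') φ (A := Set.univ) (fun _ _ _ _ => Set.mem_univ _) hφ.injOn hF hE' h

/-- comparison on a larger edge set. -/
theorem TH_sub {ι : Type*} {E E' : Finset ι} (hE : E ⊆ E') {q : ℝ} (h0 : 0 ≤ q) (h1 : q ≤ 1)
    (B : Finset ι → Prop) (hB : Inc B) : Pr q E B ≤ Pr q E' B := by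
  refine Pr_le_of_map h0 h1 id (Set.injOn_id _) ?_ B B hB ?_
  · rw [Finset.image_id]; exact hE
  · intro F _ h
    rwa [Finset.image_id]

theorem TH_inj (φ : (Fin d → ℤ) → (Fin d → ℤ))
    (hφ : ∀ x y, ∑ i, |φ x i - φ y i| = ∑ i, |x i - y i|) : Function.Injective φ := by
  intro x y hxy
  have h := hφ x y
  rw [hxy] at h
  simp only [sub_self, abs_zero, Finset.sum_const_zero] at h
  have h2 := (Finset.sum_eq_zero_iff_of_nonneg fun _ _ => abs_nonneg _).1 h.symm
  funext i
  have := h2 i (Finset.mem_univ i)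
  rw [abs_eq_zero] at this
  omega

/-- comparison of passage times under a distance preserving map. -/
theorem TH_map {Λ Λ' : Finset (Fin d → ℤ)} (φ : (Fin d → ℤ) → (Fin d → ℤ))
    (hΛ : ∀ x ∈ Λ, φ x ∈ Λ') (hφ : ∀ x y, ∑ i, |φ x i - φ y i| = ∑ i, |x i - y i|) {q : ℝ}
    (h0 : 0 ≤ q) (h1 : q ≤ 1) (k : ℕ) (x y : Fin d → ℤ) :
    Pr q (zE d Λ) (fun F => PT (zE d Λ) F k x y) ≤
      Pr q (zE d Λ') (fun F => PT (zE d Λ') F k (φ x) (φ y)) := by
  refine TH_gen φ (TH_inj φ hφ) ?_ h0 h1 k x y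
  intro e he
  induction e using Sym2.ind with
  | _ x y =>
    rw [TH_mem_zE] at he
    rw [Sym2.map_mk, TH_mem_zE]
    exact ⟨hΛ _ he.1, hΛ _ he.2.1, (hφ x y).trans he.2.2⟩

/-- a short lattice path inside a box. -/
theorem TH_short (R : ℕ) (F : Finset (Sym2 (Fin d → ℤ))) (k : ℕ) : ∀ x y : Fin d → ℤ, x ∈ box d R →
    y ∈ box d R → ∑ i, |x i - y i| ≤ k → PT (zE d (box d R)) F k x y := by
  induction k with
  | zero =>
    intro x y _ _ h
    have h1 : ∑ i, |x i - y i| = 0 := le_antisymm (by simpa using h) (Finset.sum_nonneg fun _ _ => abs_nonneg _)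
    have h2 := (Finset.sum_eq_zero_iff_of_nonneg fun _ _ => abs_nonneg _).1 h1
    have h3 : x = y := by
      funext i
      have := h2 i (Finset.mem_univ i)
      rw [abs_eq_zero] at this
      omega
    subst h3
    exact ⟨SimpleGraph.Walk.nil, by simp⟩
  | succ k ih =>
    intro x y hx hy h
    by_cases hxy : x = y
    · subst hxy
      exact ⟨SimpleGraph.Walk.nil, by simp⟩
    · have h1 : ∃ i, x i ≠ y i := by
        by_contra hcon
        push Not at hcon
        exact hxy (funext hcon)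
      obtain ⟨i, hi⟩ := h1
      -- the next vertex
      obtain ⟨c, hc1, hc2, hc3⟩ : ∃ c : ℤ, |x i - c| = 1 ∧ |c - y i| + 1 = |x i - y i| ∧ |c| ≤ R := by
        have hxi := TH_mem_box.1 hx i
        have hyi := TH_mem_box.1 hy i
        rw [abs_le] at hxi hyi
        rcases lt_or_gt_of_ne hi with h2 | h2
        · refine ⟨x i + 1, by simp, ?_, ?_⟩
          · rw [abs_of_nonpos (by omega), abs_of_nonpos (by omega)]; ring
          · rw [abs_le]; omega
        · refine ⟨x i - 1, by simp, ?_, ?_⟩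
          · rw [abs_of_nonneg (by omega), abs_of_nonneg (by omega)]; ring
          · rw [abs_le]; omega
      have hz : Function.update x i c ∈ box d R := by
        rw [TH_mem_box]
        intro j
        by_cases hj : j = i
        · subst hj; simpa using hc3
        · rw [Function.update_of_ne hj]; exact TH_mem_box.1 hx j
      have h3 : ∑ j, |x j - Function.update x i c j| = 1 := by
        rw [Finset.sum_eq_single i]
        · simpa using hc1
        · intro j _ hj
          rw [Function.update_of_ne hj]; simp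
        · simp
      have h4 : ∑ j, |Function.update x i c j - y j| ≤ k := by
        have h5 := Finset.add_sum_erase Finset.univ (fun j => |Function.update x i c j - y j|) (Finset.mem_univ i)
        have h6 := Finset.add_sum_erase Finset.univ (fun j => |x j - y j|) (Finset.mem_univ i)
        have h7 : ∑ j ∈ (Finset.univ : Finset (Fin d)).erase i, |Function.update x i c j - y j| =
            ∑ j ∈ (Finset.univ : Finset (Fin d)).erase i, |x j - y j| := by
          refine Finset.sum_congr rfl fun j hj => ?_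
          rw [Function.update_of_ne (Finset.mem_erase.1 hj).1]
        simp only [Function.update_self] at h5
        rw [h7] at h5
        push_cast at h
        omega
      have h5 := ih _ y hz hy h4
      have h6 : PT (zE d (box d R)) F 1 x (Function.update x i c) := by
        have hadj : (SimpleGraph.fromEdgeSet ((zE d (box d R) : Finset (Sym2 (Fin d → ℤ))) :
            Set (Sym2 (Fin d → ℤ)))).Adj x (Function.update x i c) := by
          rw [SimpleGraph.fromEdgeSet_adj]
          refine ⟨?_, ?_⟩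
          · have := (TH_mem_zE (Λ := box d R)).2 ⟨hx, hz, h3⟩
            exact_mod_cast this
          · intro h7
            rw [← h7] at h3
            simp at h3
        refine ⟨SimpleGraph.Walk.cons hadj SimpleGraph.Walk.nil, ?_⟩
        refine (List.countP_le_length).trans ?_
        simp
      have h7 := PT_trans h6 h5
      rwa [add_comm 1 k] at h7

variable [NeZero d]

/-- the possible end points. -/
def THy (n m : ℕ) (a : Fin d × Bool × (Fin d → ℤ)) : Fin d → ℤ :=
  fun j => if j = a.1 then (if a.2.1 then (n : ℤ) else -n) else m * a.2.2 j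

/-- the signed permutation. -/
def THφ (i : Fin d) (b : Bool) (z : Fin d → ℤ) : Fin d → ℤ :=
  fun j => if j = 0 then (if b then z (Equiv.swap 0 i j) else -z (Equiv.swap 0 i j)) else z (Equiv.swap 0 i j)

theorem THφ_iso (i : Fin d) (b : Bool) (x y : Fin d → ℤ) :
    ∑ j, |THφ i b x j - THφ i b y j| = ∑ j, |x j - y j| := by
  rw [← Equiv.sum_comp (Equiv.swap 0 i) (fun j => |x j - y j|)]
  refine Finset.sum_congr rfl fun j _ => ?_
  unfold THφ
  by_cases hj : j = 0
  · rw [if_pos hj, if_pos hj]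
    cases b
    · simp only [Bool.false_eq_true, if_false]
      rw [← abs_neg]
      congr 1
      ring
    · simp
  · rw [if_neg hj, if_neg hj]

theorem THφ_box (i : Fin d) (b : Bool) {R : ℕ} {x : Fin d → ℤ} (hx : x ∈ box d R) :
    THφ i b x ∈ box d R := by
  rw [TH_mem_box] at hx ⊢
  intro j
  unfold THφ
  by_cases hj : j = 0
  · rw [if_pos hj]
    cases b
    · simp only [Bool.false_eq_true, if_false, abs_neg]
      exact hx _
    · simpa using hx _
  · rw [if_neg hj]
    exact hx _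

theorem THφ_zero (i : Fin d) (b : Bool) : THφ i b 0 = 0 := by
  funext j
  unfold THφ
  by_cases hj : j = 0 <;> simp [hj]

theorem THφ_y (n m : ℕ) (a : Fin d × Bool × (Fin d → ℤ)) : THφ a.1 a.2.1 (THy n m a) 0 = n := by
  unfold THφ THy
  obtain ⟨i, b, k⟩ := a
  cases b <;> simp

/-- the reflection in the hyperplane `z 0 = n`. -/
def THρ (n : ℕ) (z : Fin d → ℤ) : Fin d → ℤ := Function.update z 0 (2 * n - z 0)

theorem THρ_iso (n : ℕ) (x y : Fin d → ℤ) :
    ∑ j, |THρ n x j - THρ n y j| = ∑ j, |x j - y j| := by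
  refine Finset.sum_congr rfl fun j _ => ?_
  unfold THρ
  by_cases hj : j = 0
  · subst hj
    rw [Function.update_self, Function.update_self, ← abs_neg]
    congr 1
    ring
  · rw [Function.update_of_ne hj, Function.update_of_ne hj]

theorem THρ_zero (n : ℕ) : THρ (d := d) n 0 = Pi.single 0 (2 * n : ℤ) := by
  funext j
  unfold THρ
  by_cases hj : j = 0
  · subst hj; simp
  · rw [Function.update_of_ne hj, Pi.single_eq_of_ne hj]; simp

theorem THρ_fix {n : ℕ} {y : Fin d → ℤ} (h : y 0 = n) : THρ n y = y := by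
  funext j
  unfold THρ
  by_cases hj : j = 0
  · subst hj; rw [Function.update_self, h]; ring
  · rw [Function.update_of_ne hj]

theorem THρ_box {n R : ℕ} {x : Fin d → ℤ} (hx : x ∈ box d R) : THρ n x ∈ box d (2 * n + R) := by
  rw [TH_mem_box] at hx ⊢
  intro j
  unfold THρ
  by_cases hj : j = 0
  · subst hj
    rw [Function.update_self]
    have := hx 0
    rw [abs_le] at this ⊢
    push_cast
    omega
  · rw [Function.update_of_ne hj]
    refine (hx j).trans ?_
    push_cast
    omega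

/-- the set of indices. -/
noncomputable def THs (d M : ℕ) : Finset (Fin d × Bool × (Fin d → ℤ)) :=
  Finset.univ ×ˢ (Finset.univ ×ˢ Fintype.piFinset fun _ => Finset.Icc (-(M : ℤ)) M)

theorem THs_pos (M : ℕ) : 0 < (THs d M).card := by
  rw [Finset.card_pos]
  refine ⟨(0, true, 0), ?_⟩
  simp [THs]

/-- the main geometric step. -/
theorem TH_step {M : ℕ} (hM : 1 ≤ M) {n : ℕ} {F : Finset (Sym2 (Fin d → ℤ))}
    (hF : F ⊆ zE d (box d n)) (h : ∃ x ∈ box d n, (∃ i, |x i| = n) ∧ Conn F 0 x) :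
    ∃ a ∈ THs d M, PT (zE d (box d (n + (n / M + 1)))) F (d * (n / M + 1)) 0 (THy n (n / M + 1) a) := by
  obtain ⟨x, hx, ⟨i, hi⟩, hc⟩ := h
  set m : ℕ := n / M + 1 with hm
  have hm1 : (0 : ℤ) < m := by positivity
  have hnm : (n : ℤ) < M * m := by
    have : n < M * (n / M + 1) := Nat.lt_mul_div_succ n (by omega)
    exact_mod_cast this
  set a : Fin d × Bool × (Fin d → ℤ) := (i, decide (0 ≤ x i), fun j => x j / (m : ℤ)) with ha
  have hxb := TH_mem_box.1 hx
  have hy : ∀ j, |x j - THy n m a j| ≤ m ∧ |THy n m a j| ≤ n + m := by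
    intro j
    unfold THy
    by_cases hj : j = a.1
    · rw [if_pos hj]
      have hj' : j = i := hj
      subst hj'
      have h1 : (if a.2.1 then (n : ℤ) else -n) = x j := by
        simp only [ha]
        by_cases h2 : 0 ≤ x j
        · simp only [h2, decide_true, if_true]
          rw [← hi, abs_of_nonneg h2]
        · simp only [h2, decide_false, Bool.false_eq_true, if_false]
          rw [← hi, abs_of_neg (by omega)]
          ring
      rw [h1]
      refine ⟨by simpa using hm1.le, ?_⟩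
      have := hxb j
      omega
    · rw [if_neg hj]
      simp only [ha]
      have h1 := Int.emod_add_mul_ediv (x j) m
      have h2 := Int.emod_nonneg (x j) (ne_of_gt hm1)
      have h3 := Int.emod_lt_of_pos (x j) hm1
      have h4 := hxb j
      rw [abs_le] at h4
      constructor
      · rw [abs_le]; constructor <;> linarith
      · rw [abs_le]; constructor <;> linarith
  have hyb : THy n m a ∈ box d (n + m) := by
    rw [TH_mem_box]
    intro j
    push_cast
    exact (hy j).2
  have hxb' : x ∈ box d (n + m) := LB_box_mono (by omega) hx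
  refine ⟨a, ?_, ?_⟩
  · simp only [THs, Finset.mem_product, Finset.mem_univ, true_and, Fintype.mem_piFinset, Finset.mem_Icc]
    intro j
    simp only [ha]
    have h4 := hxb j
    rw [abs_le] at h4
    constructor
    · rw [Int.le_ediv_iff_mul_le hm1]
      linarith
    · refine (Int.ediv_lt_of_lt_mul hm1 ?_).le
      linarith
  · have h1 : PT (zE d (box d n)) F 0 0 x := (PT_zero_iff hF 0 x).2 hc
    have h2 : PT (zE d (box d (n + m))) F 0 0 x :=
      PT_mono (LB_zE_mono (LB_box_mono (by omega))) (fun _ _ h => h) le_rfl h1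
    have h3 : PT (zE d (box d (n + m))) F (d * m) x (THy n m a) := by
      refine TH_short _ _ _ _ _ hxb' hyb ?_
      refine (Finset.sum_le_sum fun j _ => (hy j).1).trans ?_
      simp
    have h4 := PT_trans h2 h3
    rwa [zero_add] at h4

theorem theta_PT (M : ℕ) (hM : 1 ≤ M) : ∃ N : ℝ, 0 < N ∧ ∀ (q : ℝ) (n : ℕ), 0 ≤ q → q ≤ 1 → 1 ≤ n →
    ∃ Λ : Finset (Fin d → ℤ), (theta d n q / N) ^ 2 ≤
      Pr q (zE d Λ) (fun F => PT (zE d Λ) F (2 * d * (n / M + 1)) 0 (Pi.single 0 (2 * n : ℤ))) := by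
  refine ⟨((THs d M).card : ℝ), by exact_mod_cast THs_pos M, ?_⟩
  intro q n h0 h1 hn
  set m : ℕ := n / M + 1 with hm
  have hN : (0 : ℝ) < ((THs d M).card : ℝ) := by exact_mod_cast THs_pos M
  set N : ℝ := ((THs d M).card : ℝ) with hNdef
  have hθ : theta d n q ≤ ∑ a ∈ THs d M, Pr q (zE d (box d n))
      (fun F => PT (zE d (box d (n + m))) F (d * m) 0 (THy n m a)) := by
    refine le_trans ?_ (Pr_exists_le h0 h1 _ _ _)
    exact Pr_mono h0 h1 fun F hF h => TH_step hM hF h
  obtain ⟨a, ha, hθa⟩ : ∃ a ∈ THs d M, theta d n q / N ≤ Pr q (zE d (box d n))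
      (fun F => PT (zE d (box d (n + m))) F (d * m) 0 (THy n m a)) := by
    by_contra hcon
    push Not at hcon
    have h2 : ∑ a ∈ THs d M, Pr q (zE d (box d n))
        (fun F => PT (zE d (box d (n + m))) F (d * m) 0 (THy n m a)) < ∑ a ∈ THs d M, theta d n q / N :=
      Finset.sum_lt_sum_of_nonempty (Finset.card_pos.1 (THs_pos M)) hcon
    rw [Finset.sum_const, nsmul_eq_mul, ← hNdef, mul_div_cancel₀ _ hN.ne'] at h2
    linarith
  have hθ0 : 0 ≤ theta d n q := Pr_nonneg h0 h1 _ _
  -- into the large box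
  set y : Fin d → ℤ := THφ a.1 a.2.1 (THy n m a) with hy
  have hyn : y 0 = n := THφ_y n m a
  have hA : Pr q (zE d (box d n)) (fun F => PT (zE d (box d (n + m))) F (d * m) 0 (THy n m a)) ≤
      Pr q (zE d (box d (n + m))) (fun F => PT (zE d (box d (n + m))) F (d * m) 0 (THy n m a)) := by
    exact TH_sub (LB_zE_mono (LB_box_mono (Nat.le_add_right _ _))) h0 h1 _ (inc_PT _ _ _ _)
  have hB : Pr q (zE d (box d (n + m))) (fun F => PT (zE d (box d (n + m))) F (d * m) 0 (THy n m a)) ≤
      Pr q (zE d (box d (n + m))) (fun F => PT (zE d (box d (n + m))) F (d * m) 0 y) := by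
    have := TH_map (Λ := box d (n + m)) (Λ' := box d (n + m)) (THφ a.1 a.2.1)
      (fun x hx => THφ_box _ _ hx) (THφ_iso a.1 a.2.1) h0 h1 (d * m) 0 (THy n m a)
    rwa [THφ_zero] at this
  have hC : Pr q (zE d (box d (n + m))) (fun F => PT (zE d (box d (n + m))) F (d * m) 0 y) ≤
      Pr q (zE d (box d (2 * n + (n + m)))) (fun F => PT (zE d (box d (2 * n + (n + m)))) F (d * m) 0 y) := by
    have := TH_map (Λ := box d (n + m)) (Λ' := box d (2 * n + (n + m))) id
      (fun x hx => LB_box_mono (by omega) hx) (fun _ _ => rfl) h0 h1 (d * m) 0 y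
    simpa using this
  have hD : Pr q (zE d (box d (n + m))) (fun F => PT (zE d (box d (n + m))) F (d * m) 0 y) ≤
      Pr q (zE d (box d (2 * n + (n + m)))) (fun F => PT (zE d (box d (2 * n + (n + m)))) F (d * m)
        (Pi.single 0 (2 * n : ℤ)) y) := by
    have := TH_map (Λ := box d (n + m)) (Λ' := box d (2 * n + (n + m))) (THρ n)
      (fun x hx => THρ_box hx) (THρ_iso n) h0 h1 (d * m) 0 y
    rwa [THρ_zero, THρ_fix hyn] at this
  refine ⟨box d (2 * n + (n + m)), ?_⟩
  have hE := harris_inc h0 h1 (zE d (box d (2 * n + (n + m))))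
    (inc_PT (zE d (box d (2 * n + (n + m)))) (d * m) 0 y)
    (inc_PT (zE d (box d (2 * n + (n + m)))) (d * m) (Pi.single 0 (2 * n : ℤ)) y)
  have h2 : theta d n q / N ≤ Pr q (zE d (box d (2 * n + (n + m))))
      (fun F => PT (zE d (box d (2 * n + (n + m)))) F (d * m) 0 y) := hθa.trans (hA.trans (hB.trans hC))
  have h3 : theta d n q / N ≤ Pr q (zE d (box d (2 * n + (n + m))))
      (fun F => PT (zE d (box d (2 * n + (n + m)))) F (d * m) (Pi.single 0 (2 * n : ℤ)) y) :=
    hθa.trans (hA.trans (hB.trans hD))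
  have h4 : 0 ≤ theta d n q / N := div_nonneg hθ0 hN.le
  calc (theta d n q / N) ^ 2 = theta d n q / N * (theta d n q / N) := sq _
    _ ≤ _ := mul_le_mul h2 h3 h4 (h4.trans h2)
    _ ≤ _ := hE
    _ ≤ _ := by
      refine Pr_mono h0 h1 fun F _ h => ?_
      have := PT_trans h.1 (PT_symm h.2)
      have h5 : d * m + d * m = 2 * d * m := by ring
      rwa [h5] at this

theorem timeConst_zero {q g : ℝ} (h0 : 0 ≤ q) (h1 : q ≤ 1) (hg : IsTimeConst d (1 - q) g)
    (hθ : ∃ c : ℝ, 0 < c ∧ ∀ n, 1 ≤ n → c ≤ theta d n q) : g = 0 := by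
  obtain ⟨c, hc, hθ⟩ := hθ
  have hp0 : 0 ≤ 1 - q := by linarith
  have hp1 : 1 - q ≤ 1 := by linarith
  have hg0 := timeConst_nonneg hp0 hp1 hg
  by_contra hne
  have hgpos : 0 < g := lt_of_le_of_ne hg0 (Ne.symm hne)
  obtain ⟨M, hM⟩ := exists_nat_ge (4 * (d : ℝ) / g)
  have hd : (1 : ℝ) ≤ d := by exact_mod_cast NeZero.one_le
  have hMpos : (0 : ℝ) < M := lt_of_lt_of_le (by positivity) hM
  have hM1 : 1 ≤ M := by
    have : 0 < M := by exact_mod_cast hMpos
    omega
  obtain ⟨N, hN, hPT⟩ := theta_PT (d := d) M hM1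
  have h2 := timeConst_prob hp0 hp1 hg (show g / 2 < g by linarith)
  have h3 : Tendsto (fun n : ℕ => law d (1 - q)
      {ω | T ω 0 (Pi.single 0 ((2 * n : ℕ) : ℤ)) ≤ g / 2 * (2 * n : ℕ)}) atTop (𝓝 0) := by
    have h4 : Tendsto (fun n : ℕ => 2 * n) atTop atTop :=
      tendsto_atTop_mono (fun n => (by omega : n ≤ 2 * n)) tendsto_id
    exact h2.comp h4
  have hpos : (0 : ENNReal) < ENNReal.ofReal ((c / N) ^ 2) := by
    rw [ENNReal.ofReal_pos]; positivity
  have h4 := h3.eventually (gt_mem_nhds hpos)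
  obtain ⟨n₀, hn₀⟩ := exists_nat_ge ((2 * (d : ℝ) + 1) * 2 / g)
  obtain ⟨n, hn1, hn2⟩ := (h4.and (eventually_ge_atTop (n₀ + 1))).exists
  have hnn : 1 ≤ n := by omega
  obtain ⟨Λ, hΛ⟩ := hPT q n h0 h1 hnn
  have h5 := le_law_T hp0 hp1 0 (Pi.single 0 (2 * n : ℤ)) (2 * d * (n / M + 1)) Λ
  rw [show 1 - (1 - q) = q by ring] at h5
  have h6 : ENNReal.ofReal ((c / N) ^ 2) ≤
      ENNReal.ofReal (Pr q (zE d Λ) (fun F => PT (zE d Λ) F (2 * d * (n / M + 1)) 0 (Pi.single 0 (2 * n : ℤ)))) := by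
    refine ENNReal.ofReal_le_ofReal (le_trans ?_ hΛ)
    have h7 : c / N ≤ theta d n q / N := div_le_div_of_nonneg_right (hθ n hnn) hN.le
    exact pow_le_pow_left₀ (by positivity) h7 2
  have h7 : law d (1 - q) {ω | T ω 0 (Pi.single 0 (2 * n : ℤ)) < ((2 * d * (n / M + 1) : ℕ) : ℝ) + 1} ≤
      law d (1 - q) {ω | T ω 0 (Pi.single 0 ((2 * n : ℕ) : ℤ)) ≤ g / 2 * (2 * n : ℕ)} := by
    refine measure_mono fun ω hω => ?_
    have h8 : T ω 0 (Pi.single 0 (2 * n : ℤ)) < ((2 * d * (n / M + 1) : ℕ) : ℝ) + 1 := hω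
    change T ω 0 (Pi.single 0 ((2 * n : ℕ) : ℤ)) ≤ g / 2 * (2 * n : ℕ)
    push_cast
    push_cast at h8
    have h9 : ((n / M : ℕ) : ℝ) ≤ n / M := Nat.cast_div_le
    have hMg : 4 * (d : ℝ) ≤ M * g := by rwa [div_le_iff₀ hgpos] at hM
    have hn₀' : (n₀ : ℝ) ≤ n := by exact_mod_cast (by omega : n₀ ≤ n)
    have h10 : (2 * (d : ℝ) + 1) * 2 ≤ n * g := by
      rw [div_le_iff₀ hgpos] at hn₀
      nlinarith
    have h11 : 2 * (d : ℝ) * ((n : ℝ) / M) ≤ g * n / 2 := by
      rw [← mul_div_assoc, div_le_iff₀ hMpos]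
      nlinarith [Nat.cast_nonneg (α := ℝ) n]
    have h12 : 2 * (d : ℝ) * ((n / M : ℕ) : ℝ) ≤ 2 * (d : ℝ) * ((n : ℝ) / M) :=
      mul_le_mul_of_nonneg_left h9 (by positivity)
    linarith
  have h8 := (h6.trans (h5.trans h7)).trans_lt hn1
  exact lt_irrefl _ h8

end Pool.Agent.helper66.LE
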